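import Pool.Agent.LPK.Stmts

set_option autoImplicit false

noncomputable section

open Filter Topology

namespace Pool.Agent.LPK.H98

/-- a part of a sum over pairs, indexed by an injective map -/
theorem ax {Z : Type} [AddCommGroup Z] (i : Z → Z × Z) (hi : Function.Injective i) (f : Z × Z → ℝ)
    (hf : Summable f) (S : Set (Z × Z)) (hS : ∀ p, p ∈ S ↔ ∃ a, a ≠ 0 ∧ i a = p) (F : Z → ℝ)
    (h0 : F 0 = 0) (hF : ∀ a, a ≠ 0 → F a = f (i a)) :
    Summable (S.indicator f) ∧ Summable F ∧ ∑' p, S.indicator f p = ∑' a, F a := by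
  have h1 : Summable (S.indicator f) := hf.indicator S
  have h2 : (fun a => S.indicator f (i a)) = F := by
    funext a
    by_cases ha : a = 0
    · subst ha
      have : i 0 ∉ S := by
        intro h
        obtain ⟨b, hb, hb2⟩ := (hS _).1 h
        exact hb (hi hb2)
      rw [h0]
      exact Set.indicator_of_notMem this f
    · have : i a ∈ S := (hS _).2 ⟨a, ha, rfl⟩
      rw [hF a ha]
      exact Set.indicator_of_mem this f
  refine ⟨h1, ?_, ?_⟩
  · rw [← h2]
    exact h1.comp_injective hi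
  · rw [← h2]
    symm
    apply hi.tsum_eq
    intro p hp
    have hp1 : p ∈ S := by
      by_contra h
      exact hp (Set.indicator_of_notMem h f)
    obtain ⟨a, _, ha⟩ := (hS _).1 hp1
    exact ⟨a, ha⟩

/-- the sum over pairs is at most the sum of the lines -/
theorem key {Z : Type} [AddCommGroup Z] (h2 : ∀ a : Z, a = -a → a = 0) (f : Z × Z → ℝ)
    (hf : Summable f)
    (hr : ∀ a a' : Z, a ≠ 0 → a' ≠ 0 → a ≠ a' → a ≠ -a' → f (a, a') + f (a', a) ≤ 0)
    (F1 F2 F3 F4 : Z → ℝ) (z1 : F1 0 = 0) (z2 : F2 0 = 0) (z3 : F3 0 = 0) (z4 : F4 0 = 0)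
    (e1 : ∀ a, a ≠ 0 → F1 a = f (a, 0)) (e2 : ∀ a, a ≠ 0 → F2 a = f (0, a))
    (e3 : ∀ a, a ≠ 0 → F3 a = f (a, a)) (e4 : ∀ a, a ≠ 0 → F4 a = f (a, -a)) :
    Summable F1 ∧ Summable F2 ∧ Summable F3 ∧ Summable F4 ∧
    ∑' p, f p ≤ f (0, 0) + (∑' a, F1 a) + (∑' a, F2 a) + (∑' a, F3 a) + ∑' a, F4 a := by
  classical
  set S0 : Set (Z × Z) := {(0, 0)} with hS0
  set S1 : Set (Z × Z) := {p | p.1 ≠ 0 ∧ p.2 = 0} with hS1
  set S2 : Set (Z × Z) := {p | p.1 = 0 ∧ p.2 ≠ 0} with hS2
  set S3 : Set (Z × Z) := {p | p.1 ≠ 0 ∧ p.2 = p.1} with hS3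
  set S4 : Set (Z × Z) := {p | p.1 ≠ 0 ∧ p.2 = -p.1} with hS4
  set R : Set (Z × Z) := {p | p.1 ≠ 0 ∧ p.2 ≠ 0 ∧ p.1 ≠ p.2 ∧ p.1 ≠ -p.2} with hR
  obtain ⟨a1, b1, c1⟩ := ax (fun a => (a, 0)) (fun a b h => (Prod.ext_iff.1 h).1) f hf S1 (by
    rintro ⟨p, q⟩
    constructor
    · rintro ⟨h, h'⟩
      exact ⟨p, h, Prod.ext rfl h'.symm⟩
    · rintro ⟨a, ha, h⟩
      obtain ⟨h3, h4⟩ := Prod.ext_iff.1 h
      exact ⟨fun hh => ha (h3.trans hh), h4.symm⟩) F1 z1 e1
  obtain ⟨a2, b2, c2⟩ := ax (fun a => (0, a)) (fun a b h => (Prod.ext_iff.1 h).2) f hf S2 (by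
    rintro ⟨p, q⟩
    constructor
    · rintro ⟨h, h'⟩
      exact ⟨q, h', Prod.ext h.symm rfl⟩
    · rintro ⟨a, ha, h⟩
      obtain ⟨h3, h4⟩ := Prod.ext_iff.1 h
      exact ⟨h3.symm, fun hh => ha (h4.trans hh)⟩) F2 z2 e2
  obtain ⟨a3, b3, c3⟩ := ax (fun a => (a, a)) (fun a b h => (Prod.ext_iff.1 h).1) f hf S3 (by
    rintro ⟨p, q⟩
    constructor
    · rintro ⟨h, h'⟩
      exact ⟨p, h, Prod.ext rfl h'.symm⟩
    · rintro ⟨a, ha, h⟩
      obtain ⟨h3, h4⟩ := Prod.ext_iff.1 h
      exact ⟨fun hh => ha (h3.trans hh), h4.symm.trans h3⟩) F3 z3 e3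
  obtain ⟨a4, b4, c4⟩ := ax (fun a => (a, -a)) (fun a b h => (Prod.ext_iff.1 h).1) f hf S4 (by
    rintro ⟨p, q⟩
    constructor
    · rintro ⟨h, h'⟩
      exact ⟨p, h, Prod.ext rfl h'.symm⟩
    · rintro ⟨a, ha, h⟩
      obtain ⟨h3, h4⟩ := Prod.ext_iff.1 h
      have h3' : a = p := h3
      have h4' : -a = q := h4
      exact ⟨fun hh => ha (h3'.trans hh), by rw [← h3', ← h4']⟩) F4 z4 e4
  have a0 : Summable (S0.indicator f) := hf.indicator S0
  have c0 : ∑' p, S0.indicator f p = f (0, 0) := by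
    rw [tsum_eq_single ((0 : Z), (0 : Z))]
    · exact Set.indicator_of_mem rfl f
    · intro p hp
      exact Set.indicator_of_notMem (s := S0) (fun h => hp h) f
  have aR : Summable (R.indicator f) := hf.indicator R
  have hdec : ∀ p, f p = R.indicator f p + (S0.indicator f p + (S1.indicator f p + (S2.indicator f p +
      (S3.indicator f p + S4.indicator f p)))) := by
    rintro ⟨x, y⟩
    by_cases hx : x = 0
    · by_cases hy : y = 0
      · subst hx; subst hy
        simp [hR, hS0, hS1, hS2, hS3, hS4]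
      · subst hx
        have hy' : ¬ (0 = y) := fun h => hy h.symm
        simp [hR, hS0, hS1, hS2, hS3, hS4, hy]
    · by_cases hy : y = 0
      · subst hy
        have hx' : ¬ (0 = x) := fun h => hx h.symm
        simp [hR, hS0, hS1, hS2, hS3, hS4, hx, hx']
      · by_cases h : y = x
        · subst h
          have h5 : ¬ (y = -y) := fun h => hx (h2 y h)
          simp [hR, hS0, hS1, hS2, hS3, hS4, hx, h5]
        · by_cases h' : y = -x
          · subst h'
            have h5 : ¬ (x = -x) := fun h => hx (h2 x h)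
            have h6 : ¬ (-x = x) := fun h => hx (h2 x h.symm)
            simp [hR, hS0, hS1, hS2, hS3, hS4, hx, h6]
          · have h7 : ¬ (x = y) := fun hh => h hh.symm
            have h8 : ¬ (x = -y) := fun hh => h' (by rw [hh, neg_neg])
            simp [hR, hS0, hS1, hS2, hS3, hS4, hx, hy, h, h', h7, h8]
  have hsw : ∑' p, R.indicator f p = ∑' p : Z × Z, R.indicator f p.swap :=
    ((Equiv.prodComm Z Z).tsum_eq (R.indicator f)).symm
  have hsw2 : Summable fun p : Z × Z => R.indicator f p.swap :=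
    ((Equiv.prodComm Z Z).summable_iff (f := R.indicator f)).2 aR
  have hRle : ∑' p, R.indicator f p ≤ 0 := by
    have h1 : (∑' p, R.indicator f p) + ∑' p : Z × Z, R.indicator f p.swap ≤ 0 := by
      rw [← aR.tsum_add hsw2]
      apply tsum_nonpos
      rintro ⟨x, y⟩
      by_cases hm : (x, y) ∈ R
      · have hm2 : (y, x) ∈ R := by
          obtain ⟨h3, h4, h5, h6⟩ := hm
          have h6' : x ≠ -y := h6
          exact ⟨h4, h3, fun h => h5 h.symm, fun h => h6' (by
            have h' : y = -x := h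
            rw [h', neg_neg])⟩
        have q1 : R.indicator f (x, y) = f (x, y) := Set.indicator_of_mem hm f
        have q2 : R.indicator f (Prod.swap (x, y)) = f (y, x) := Set.indicator_of_mem hm2 f
        rw [q1, q2]
        exact hr x y hm.1 hm.2.1 hm.2.2.1 hm.2.2.2
      · have hm2 : (y, x) ∉ R := by
          intro hm3
          apply hm
          obtain ⟨h3, h4, h5, h6⟩ := hm3
          have h6' : y ≠ -x := h6
          exact ⟨h4, h3, fun h => h5 h.symm, fun h => h6' (by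
            have h' : x = -y := h
            rw [h', neg_neg])⟩
        have q1 : R.indicator f (x, y) = 0 := Set.indicator_of_notMem hm f
        have q2 : R.indicator f (Prod.swap (x, y)) = 0 := Set.indicator_of_notMem hm2 f
        rw [q1, q2]
        simp
    rw [← hsw] at h1
    linarith
  refine ⟨b1, b2, b3, b4, ?_⟩
  have htot : ∑' p, f p = (∑' p, R.indicator f p) + ((∑' p, S0.indicator f p) +
      ((∑' p, S1.indicator f p) + ((∑' p, S2.indicator f p) + ((∑' p, S3.indicator f p) +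
        ∑' p, S4.indicator f p)))) := by
    rw [← a3.tsum_add a4, ← a2.tsum_add (a3.add a4), ← a1.tsum_add (a2.add (a3.add a4)),
      ← a0.tsum_add (a1.add (a2.add (a3.add a4))),
      ← aR.tsum_add (a0.add (a1.add (a2.add (a3.add a4))))]
    exact tsum_congr hdec
  rw [htot, c0, c1, c2, c3, c4]
  linarith

/-- the same for mixed pairs -/
theorem key2 {Z : Type} [AddCommGroup Z] (f : Z × Z → ℝ)
    (hf : Summable f)
    (hr : ∀ a a' : Z, a ≠ 0 → a' ≠ 0 → f (a, a') ≤ 0)
    (F1 F2 : Z → ℝ) (z1 : F1 0 = 0) (z2 : F2 0 = 0)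
    (e1 : ∀ a, a ≠ 0 → F1 a = f (a, 0)) (e2 : ∀ a, a ≠ 0 → F2 a = f (0, a)) :
    Summable F1 ∧ Summable F2 ∧
    ∑' p, f p ≤ f (0, 0) + (∑' a, F1 a) + ∑' a, F2 a := by
  classical
  set S0 : Set (Z × Z) := {(0, 0)} with hS0
  set S1 : Set (Z × Z) := {p | p.1 ≠ 0 ∧ p.2 = 0} with hS1
  set S2 : Set (Z × Z) := {p | p.1 = 0 ∧ p.2 ≠ 0} with hS2
  set R : Set (Z × Z) := {p | p.1 ≠ 0 ∧ p.2 ≠ 0} with hR
  obtain ⟨a1, b1, c1⟩ := ax (fun a => (a, 0)) (fun a b h => (Prod.ext_iff.1 h).1) f hf S1 (by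
    rintro ⟨p, q⟩
    constructor
    · rintro ⟨h, h'⟩
      exact ⟨p, h, Prod.ext rfl h'.symm⟩
    · rintro ⟨a, ha, h⟩
      obtain ⟨h3, h4⟩ := Prod.ext_iff.1 h
      exact ⟨fun hh => ha (h3.trans hh), h4.symm⟩) F1 z1 e1
  obtain ⟨a2, b2, c2⟩ := ax (fun a => (0, a)) (fun a b h => (Prod.ext_iff.1 h).2) f hf S2 (by
    rintro ⟨p, q⟩
    constructor
    · rintro ⟨h, h'⟩
      exact ⟨q, h', Prod.ext h.symm rfl⟩
    · rintro ⟨a, ha, h⟩
      obtain ⟨h3, h4⟩ := Prod.ext_iff.1 h
      exact ⟨h3.symm, fun hh => ha (h4.trans hh)⟩) F2 z2 e2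
  have a0 : Summable (S0.indicator f) := hf.indicator S0
  have c0 : ∑' p, S0.indicator f p = f (0, 0) := by
    rw [tsum_eq_single ((0 : Z), (0 : Z))]
    · exact Set.indicator_of_mem rfl f
    · intro p hp
      exact Set.indicator_of_notMem (s := S0) (fun h => hp h) f
  have aR : Summable (R.indicator f) := hf.indicator R
  have hdec : ∀ p, f p = R.indicator f p + (S0.indicator f p + (S1.indicator f p +
      S2.indicator f p)) := by
    rintro ⟨x, y⟩
    by_cases hx : x = 0
    · by_cases hy : y = 0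
      · subst hx; subst hy
        simp [hR, hS0, hS1, hS2]
      · subst hx
        simp [hR, hS0, hS1, hS2, hy]
    · by_cases hy : y = 0
      · subst hy
        simp [hR, hS0, hS1, hS2, hx]
      · simp [hR, hS0, hS1, hS2, hx, hy]
  have hRle : ∑' p, R.indicator f p ≤ 0 := by
    apply tsum_nonpos
    rintro ⟨x, y⟩
    by_cases hm : (x, y) ∈ R
    · have q1 : R.indicator f (x, y) = f (x, y) := Set.indicator_of_mem hm f
      rw [q1]
      exact hr x y hm.1 hm.2
    · have q1 : R.indicator f (x, y) = 0 := Set.indicator_of_notMem hm f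
      rw [q1]
  refine ⟨b1, b2, ?_⟩
  have htot : ∑' p, f p = (∑' p, R.indicator f p) + ((∑' p, S0.indicator f p) +
      ((∑' p, S1.indicator f p) + ∑' p, S2.indicator f p)) := by
    rw [← a1.tsum_add a2, ← a0.tsum_add (a1.add a2), ← aR.tsum_add (a0.add (a1.add a2))]
    exact tsum_congr hdec
  rw [htot, c0, c1, c2]
  linarith

theorem spl : SplStmt := by
  classical
  intro n fLL fSS fLS fL fS c sLL sSS sLS sL sS htot hc hL hS rL rS rM
  have h2 : ∀ a : Fin n → ℤ, a = -a → a = 0 := by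
    intro a ha
    funext i
    have := congrFun ha i
    simp only [Pi.neg_apply, Pi.zero_apply] at this ⊢
    omega
  obtain ⟨p1, p2, p3, p4, p5⟩ := key h2 fLL sLL rL
    (fun a => if a = 0 then 0 else fLL (a, 0)) (fun a => if a = 0 then 0 else fLL (0, a))
    (fun a => if a = 0 then 0 else fLL (a, a)) (fun a => if a = 0 then 0 else fLL (a, -a))
    (if_pos rfl) (if_pos rfl) (if_pos rfl) (if_pos rfl)
    (fun a ha => if_neg ha) (fun a ha => if_neg ha) (fun a ha => if_neg ha) (fun a ha => if_neg ha)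
  obtain ⟨q1, q2, q3, q4, q5⟩ := key h2 fSS sSS rS
    (fun a => if a = 0 then 0 else fSS (a, 0)) (fun a => if a = 0 then 0 else fSS (0, a))
    (fun a => if a = 0 then 0 else fSS (a, a)) (fun a => if a = 0 then 0 else fSS (a, -a))
    (if_pos rfl) (if_pos rfl) (if_pos rfl) (if_pos rfl)
    (fun a ha => if_neg ha) (fun a ha => if_neg ha) (fun a ha => if_neg ha) (fun a ha => if_neg ha)
  obtain ⟨m1, m2, m3⟩ := key2 fLS sLS rM
    (fun a => if a = 0 then 0 else fLS (a, 0)) (fun a => if a = 0 then 0 else fLS (0, a))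
    (if_pos rfl) (if_pos rfl)
    (fun a ha => if_neg ha) (fun a ha => if_neg ha)
  have l1 : Summable (fun a => if a = 0 then 0 else fL a) := by
    have : (fun a => if a = 0 then 0 else fL a) = Set.indicator {a | a ≠ 0} fL := by
      funext a
      by_cases ha : a = 0
      · simp [ha]
      · simp [ha]
    rw [this]
    exact sL.indicator _
  have l2 : Summable (fun a => if a = 0 then 0 else fS a) := by
    have : (fun a => if a = 0 then 0 else fS a) = Set.indicator {a | a ≠ 0} fS := by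
      funext a
      by_cases ha : a = 0
      · simp [ha]
      · simp [ha]
    rw [this]
    exact sS.indicator _
  have l3 := sL.tsum_eq_add_tsum_ite 0
  have l4 := sS.tsum_eq_add_tsum_ite 0
  have u1 : (∑' a, (if a = 0 then 0 else fLL (a, 0))) + (∑' a, (if a = 0 then 0 else fLL (0, a))) +
      (∑' a, (if a = 0 then 0 else fLL (a, a))) + (∑' a, (if a = 0 then 0 else fLL (a, -a))) +
      (∑' a, (if a = 0 then 0 else fLS (a, 0))) + (∑' a, (if a = 0 then 0 else fL a)) ≤ 0 := by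
    rw [← p1.tsum_add p2, ← (p1.add p2).tsum_add p3, ← ((p1.add p2).add p3).tsum_add p4,
      ← (((p1.add p2).add p3).add p4).tsum_add m1,
      ← ((((p1.add p2).add p3).add p4).add m1).tsum_add l1]
    apply tsum_nonpos
    intro a
    by_cases ha : a = 0
    · simp [ha]
    · simp only [if_neg ha]
      exact hL a ha
  have u2 : (∑' a, (if a = 0 then 0 else fSS (a, 0))) + (∑' a, (if a = 0 then 0 else fSS (0, a))) +
      (∑' a, (if a = 0 then 0 else fSS (a, a))) + (∑' a, (if a = 0 then 0 else fSS (a, -a))) +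
      (∑' a, (if a = 0 then 0 else fLS (0, a))) + (∑' a, (if a = 0 then 0 else fS a)) ≤ 0 := by
    rw [← q1.tsum_add q2, ← (q1.add q2).tsum_add q3, ← ((q1.add q2).add q3).tsum_add q4,
      ← (((q1.add q2).add q3).add q4).tsum_add m2,
      ← ((((q1.add q2).add q3).add q4).add m2).tsum_add l2]
    apply tsum_nonpos
    intro a
    by_cases ha : a = 0
    · simp [ha]
    · simp only [if_neg ha]
      exact hS a ha
  linarith

end Pool.Agent.LPK.H98
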